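import Pool.Agent.H603.AVD.Half

/-!
# The equation `2 x₁ + 2 x₂ + 2 x₃ = 3 x₄ + 3 x₅`: sets of size `N ^ (1 / 2 - o(1))`

The sets have only the constant solutions.
-/

set_option autoImplicit false

namespace Pool.Agent.Results.MP_484b1d_nt.ExponentOneHalf

theorem result : ∀ γ : ℝ, γ < 1 / 2 → ∃ N₀ : ℕ, ∀ N : ℕ, N₀ ≤ N →
    ∃ A : Finset ℕ, A ⊆ Finset.Icc 1 N ∧ (N : ℝ) ^ γ ≤ (A.card : ℝ) ∧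
      ∀ x₁ ∈ A, ∀ x₂ ∈ A, ∀ x₃ ∈ A, ∀ x₄ ∈ A, ∀ x₅ ∈ A,
        2 * x₁ + 2 * x₂ + 2 * x₃ = 3 * x₄ + 3 * x₅ → x₁ = x₂ ∧ x₂ = x₃ ∧ x₃ = x₄ ∧ x₄ = x₅ :=
  Pool.Agent.H603.AVD.half

end Pool.Agent.Results.MP_484b1d_nt.ExponentOneHalf
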